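import Pool.Agent.P.MP_3feef6_an.Main

open Pool.Agent.P.MP_3feef6_an

/-- The fixed points of the mean-Aluthge transform are exactly the quasi-normal operators. -/
theorem Pool.Agent.Results.MP_3feef6_an.FixedPoints.result
    {H : Type*} [NormedAddCommGroup H] [InnerProductSpace ℂ H] [CompleteSpace H]
    (T : H →L[ℂ] H) :
    meanTransform (aluthge T) = T ↔ Commute T (star T * T) :=
  Pool.Agent.P.MP_3feef6_an.main T
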